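import Mathlib
import Pool.Agent.KS6_4.PR.Top

/-!
# The K-primitivity rank of a word equals its primitivity rank, in free groups of arbitrary rank

`F = FreeGroup X` is the free group on an arbitrary type `X` (finite or infinite, of any cardinality), `K` is any
field, `A = MonoidAlgebra K F` the group algebra. Right ideals of `A` are the submodules of `A` over the opposite
ring. The case of finite `X` is a theorem of the library.
-/

set_option autoImplicit false

namespace Pool.Agent.Results.MP_b8b21d_al.InfiniteRank

open Module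

universe u

/-- `w` is primitive in the (free) group `H`: some free basis of `H` contains it. -/
def IsPrimitive {H : Type} [Group H] (w : H) : Prop :=
  ∃ (ι : Type) (b : FreeGroupBasis ι H), w ∈ Set.range b

/-- The primitivity rank of `w`: the minimum of the ranks of the subgroups `H` of the free group
which contain `w` and in which `w` is not primitive; `⊤` if there is no such `H`. -/
noncomputable def primRank {X : Type} (w : FreeGroup X) : ℕ∞ :=
  sInf {n : ℕ∞ | ∃ (H : Subgroup (FreeGroup X)) (hw : w ∈ H),
    (∃ (ι : Type) (_ : FreeGroupBasis ι H), ENat.card ι = n) ∧ ¬ IsPrimitive (⟨w, hw⟩ : H)}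

/-- `f` is primitive in the right ideal `I`: it belongs to some basis of `I` as a right module. -/
def IsPrimitiveIn {A : Type u} [Ring A] (I : Submodule Aᵐᵒᵖ A) (f : A) : Prop :=
  ∃ (ι : Type u) (b : Basis ι Aᵐᵒᵖ I) (i : ι), (b i : A) = f

/-- The `K`-primitivity rank of `w`: the minimum of the ranks of the proper right ideals `I` of the
group algebra over `K` which contain `w - 1` and in which `w - 1` is not primitive; `⊤` if there is
no such `I`. -/
noncomputable def fieldPrimRank (K : Type u) [Field K] {X : Type} (w : FreeGroup X) : ℕ∞ :=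
  sInf {n : ℕ∞ | ∃ I : Submodule (MonoidAlgebra K (FreeGroup X))ᵐᵒᵖ (MonoidAlgebra K (FreeGroup X)),
    I ≠ ⊤ ∧ MonoidAlgebra.single w 1 - 1 ∈ I ∧
    (∃ (ι : Type u) (_ : Basis ι (MonoidAlgebra K (FreeGroup X))ᵐᵒᵖ I), ENat.card ι = n) ∧
    ¬ IsPrimitiveIn I (MonoidAlgebra.single w 1 - 1)}

/-- the trivial element is not primitive in the trivial subgroup, which has rank zero -/
theorem primRank_one {X : Type} : primRank (1 : FreeGroup X) = 0 := by
  refine le_antisymm (sInf_le ⟨⊥, Subgroup.one_mem _, ⟨Empty, ?_, ?_⟩, ?_⟩) (zero_le)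
  · exact ⟨(MulEquiv.ofUnique : (⊥ : Subgroup (FreeGroup X)) ≃* FreeGroup Empty)⟩
  · simp
  · rintro ⟨ι, b, i, hi⟩
    have h1 : b i = 1 := Subsingleton.elim _ _
    have h2 := congrArg b.repr h1
    rw [map_one] at h2
    have h3 : b.repr (b i) = FreeGroup.of i := by
      show b.repr (b.repr.symm (FreeGroup.of i)) = _
      exact MulEquiv.apply_symm_apply _ _
    rw [h3] at h2
    exact FreeGroup.of_ne_one i h2

/-- the primitivity rank is infinite exactly for the primitive words -/
theorem primRank_eq_top {X : Type} (w : FreeGroup X) : primRank w = ⊤ ↔ IsPrimitive w := by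
  constructor
  · intro h
    by_contra hn
    obtain ⟨H, hw, ⟨κ, hκ, ⟨c⟩⟩, hH⟩ := Pool.Agent.KS6_4.PR.exists_sub hn
    have h1 : primRank w ≤ ENat.card κ := sInf_le ⟨H, hw, ⟨κ, c, rfl⟩, hH⟩
    rw [h, top_le_iff, ENat.card_eq_coe_natCard] at h1
    exact ENat.coe_ne_top _ h1
  · intro h
    rw [eq_top_iff]
    refine le_sInf ?_
    rintro n ⟨H, hw, ⟨κ, c, rfl⟩, hH⟩
    rcases finite_or_infinite κ with hκ | hκ
    · exact absurd (Pool.Agent.KS6_4.PR.prim_sub h H hw c) hH
    · rw [ENat.card_eq_top_of_infinite]

/-- **The primitivity rank over a field, arbitrary rank**: for every field `K` (of any size, in any universe),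
every type `X`, finite or infinite, and every element `w` of the free group on `X`, the `K`-primitivity rank of
`w` equals the primitivity rank of `w`; in particular it does not depend on `K`. It is infinite if and only if `w`
is a primitive element of the free group. -/
theorem result (K : Type u) [Field K] (X : Type) (w : FreeGroup X) :
    fieldPrimRank K w = primRank w ∧ (fieldPrimRank K w = ⊤ ↔ IsPrimitive w) := by
  suffices h : fieldPrimRank K w = primRank w from ⟨h, by rw [h]; exact primRank_eq_top w⟩
  apply le_antisymm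
  · refine le_sInf ?_
    rintro n ⟨H, hw, ⟨ι, b, rfl⟩, hnp⟩
    rcases finite_or_infinite ι with hι | hι
    · obtain ⟨I, hI, hwI, ⟨c⟩, hnpI⟩ :=
        Pool.Agent.Helper673_PQ.ideal_of_subgroup (K := K) H w hw b hnp
      exact sInf_le ⟨I, hI, hwI, ⟨ULift.{u} ι, c.reindex Equiv.ulift.symm, by simp⟩, hnpI⟩
    · rw [ENat.card_eq_top_of_infinite]
      exact le_top
  · refine le_sInf ?_
    rintro n ⟨I, hI, hwI, ⟨ι, b, rfl⟩, hnp⟩
    by_cases hw1 : w = 1
    · rw [hw1, primRank_one]
      exact zero_le
    rcases finite_or_infinite ι with hι | hι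
    · obtain ⟨H, hw, ⟨t, ht, htc⟩, hnpH⟩ :=
        Pool.Agent.KS6_4.PR.subgroup_of_ideal (K := K) w hw1 I hI hwI
          (b.reindex (Finite.equivFin ι)) hnp
      have hfree : IsFreeGroup H := inferInstance
      obtain ⟨κ, ⟨c⟩⟩ := hfree.nonempty_basis
      obtain ⟨hκ, hκc⟩ := Pool.Agent.Helper166_PQ.card_basis_le c t htc
      have hle : primRank w ≤ ENat.card κ := sInf_le ⟨H, hw, ⟨κ, c, rfl⟩, hnpH⟩
      refine hle.trans ?_
      rw [ENat.card_eq_coe_natCard, ENat.card_eq_coe_natCard]
      exact_mod_cast hκc.trans ht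
    · rw [ENat.card_eq_top_of_infinite]
      exact le_top

end Pool.Agent.Results.MP_b8b21d_al.InfiniteRank
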